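import Mathlib

/-!
The stretch set of a non-constant Lipschitz map `f : ℝⁿ → ℝᵐ` is covered by one Lipschitz image
of `ℝⁿ⁺ᵐ`.

Proof.  Let `L = Lip f > 0`.  Attach to a pair `(x, y)` of the stretch set its midpoint
`z = (x + y) / 2`, its half difference `d = (y - x) / 2`, and the image half difference
`D = (f y - f x) / (2 L)`; then `|D| = |d|`.  For two pairs, the Lipschitz inequality applied to
`(y, x')` and `(y', x)` and the parallelogram identity give
`|d - d'|² ≤ |z - z'|² + |D - D'|²`.  So `(z, D) ↦ (z - d, z + d)` is a Lipschitz map from a subset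
of `ℝⁿ × ℝᵐ` onto the stretch set, and it extends to a Lipschitz map on all of `ℝⁿ × ℝᵐ`.
-/

set_option autoImplicit false

open Set
open scoped NNReal

namespace Pool.Agent.Results.MP_adfebc_an.StretchSet

/-- Euclidean space `ℝᵏ`. -/
abbrev E (k : ℕ) := EuclideanSpace ℝ (Fin k)

/-- The optimal Lipschitz constant of `f`: the infimum of all `L ≥ 0` with
`|f x - f y| ≤ L |x - y|` for all `x`, `y`. -/
noncomputable def lip {n m : ℕ} (f : E n → E m) : ℝ :=
  sInf {L : ℝ | 0 ≤ L ∧ ∀ x y, ‖f x - f y‖ ≤ L * ‖x - y‖}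

/-- The stretch set of `f`: all pairs `(x, y)` with `|f x - f y| = Lip(f) |x - y|`, as a subset of
`ℝⁿ × ℝⁿ` with its Euclidean norm. -/
def stretchSet {n m : ℕ} (f : E n → E m) : Set (WithLp 2 (E n × E n)) :=
  {p | ‖f p.fst - f p.snd‖ = lip f * ‖p.fst - p.snd‖}

lemma lip_spec {n m : ℕ} {f : E n → E m} {K : ℝ≥0} (hf : LipschitzWith K f) (x y : E n) :
    ‖f x - f y‖ ≤ lip f * ‖x - y‖ := by
  set S := {L : ℝ | 0 ≤ L ∧ ∀ x y, ‖f x - f y‖ ≤ L * ‖x - y‖} with hS
  have hne : S.Nonempty := ⟨K, K.2, fun x y => by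
    have := hf.dist_le_mul x y
    rwa [dist_eq_norm, dist_eq_norm] at this⟩
  rcases eq_or_ne x y with rfl | hxy
  · simp
  · have hpos : 0 < ‖x - y‖ := norm_pos_iff.2 (sub_ne_zero.2 hxy)
    rw [← div_le_iff₀ hpos]
    refine le_csInf hne fun L hL => ?_
    rw [div_le_iff₀ hpos]
    exact hL.2 x y

lemma lip_pos {n m : ℕ} {f : E n → E m} {K : ℝ≥0} (hf : LipschitzWith K f)
    (hc : ∃ x y, f x ≠ f y) : 0 < lip f := by
  obtain ⟨x, y, hxy⟩ := hc
  have h := lip_spec hf x y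
  have h1 : 0 < ‖f x - f y‖ := norm_pos_iff.2 (sub_ne_zero.2 hxy)
  by_contra hcon
  push Not at hcon
  have : lip f * ‖x - y‖ ≤ 0 := mul_nonpos_of_nonpos_of_nonneg hcon (norm_nonneg _)
  linarith

/-- The key inequality. -/
lemma key {n m : ℕ} {f : E n → E m} {L : ℝ} (hL : 0 < L)
    (hf : ∀ x y, ‖f x - f y‖ ≤ L * ‖x - y‖) {z d z' d' : E n} {F D F' D' : E m}
    (h1 : f (z + d) = F + L • D) (h2 : f (z - d) = F - L • D)
    (h3 : f (z' + d') = F' + L • D') (h4 : f (z' - d') = F' - L • D')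
    (hD : ‖D‖ = ‖d‖) (hD' : ‖D'‖ = ‖d'‖) :
    ‖d - d'‖ ^ 2 ≤ ‖z - z'‖ ^ 2 + ‖D - D'‖ ^ 2 := by
  have e1 : ‖f (z + d) - f (z' - d')‖ ^ 2 ≤ L ^ 2 * ‖(z - z') + (d + d')‖ ^ 2 := by
    have := hf (z + d) (z' - d')
    have e : (z + d) - (z' - d') = (z - z') + (d + d') := by abel
    rw [e] at this
    rw [← mul_pow]
    exact pow_le_pow_left₀ (norm_nonneg _) this 2
  have e2 : ‖f (z' + d') - f (z - d)‖ ^ 2 ≤ L ^ 2 * ‖-(z - z') + (d + d')‖ ^ 2 := by
    have := hf (z' + d') (z - d)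
    have e : (z' + d') - (z - d) = -(z - z') + (d + d') := by abel
    rw [e] at this
    rw [← mul_pow]
    exact pow_le_pow_left₀ (norm_nonneg _) this 2
  have e3 : f (z + d) - f (z' - d') = (F - F') + L • (D + D') := by
    rw [h1, h4, smul_add]; abel
  have e4 : f (z' + d') - f (z - d) = -(F - F') + L • (D + D') := by
    rw [h3, h2, smul_add]; abel
  rw [e3] at e1
  rw [e4] at e2
  have p1 := parallelogram_law_with_norm ℝ (L • (D + D')) (F - F')
  have p2 := parallelogram_law_with_norm ℝ (d + d') (z - z')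
  have p3 := parallelogram_law_with_norm ℝ D D'
  have p4 := parallelogram_law_with_norm ℝ d d'
  have q1 : ‖(F - F') + L • (D + D')‖ = ‖L • (D + D') + (F - F')‖ := by rw [add_comm]
  have q2 : ‖-(F - F') + L • (D + D')‖ = ‖L • (D + D') - (F - F')‖ := by
    rw [add_comm, ← sub_eq_add_neg]
  have q3 : ‖(z - z') + (d + d')‖ = ‖(d + d') + (z - z')‖ := by rw [add_comm]
  have q4 : ‖-(z - z') + (d + d')‖ = ‖(d + d') - (z - z')‖ := by
    rw [add_comm, ← sub_eq_add_neg]
  have q5 : ‖L • (D + D')‖ = L * ‖D + D'‖ := by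
    rw [norm_smul, Real.norm_eq_abs, abs_of_pos hL]
  rw [q1, q3] at e1
  rw [q2, q4] at e2
  rw [q5] at p1
  rw [hD, hD'] at p3
  have hLL : 0 < L ^ 2 := by positivity
  have hFF := norm_nonneg (F - F')
  have s1 : L ^ 2 * ‖D + D'‖ ^ 2 ≤ L ^ 2 * (‖d + d'‖ ^ 2 + ‖z - z'‖ ^ 2) := by
    nlinarith [mul_self_nonneg ‖F - F'‖]
  have s2 : ‖D + D'‖ ^ 2 ≤ ‖d + d'‖ ^ 2 + ‖z - z'‖ ^ 2 := le_of_mul_le_mul_left s1 hLL
  nlinarith

/-- **The stretch set is rectifiable.** For every non-constant Lipschitz map `f : ℝⁿ → ℝᵐ` the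
stretch set is contained in the image of a single Lipschitz map `ℝⁿ⁺ᵐ → ℝⁿ × ℝⁿ`. -/
theorem result (n m : ℕ) (f : E n → E m) (K : ℝ≥0) (hf : LipschitzWith K f)
    (hc : ∃ x y, f x ≠ f y) :
    ∃ (C : ℝ≥0) (ψ : E (n + m) → WithLp 2 (E n × E n)),
      LipschitzWith C ψ ∧ stretchSet f ⊆ range ψ := by
  classical
  set L := lip f with hLdef
  have hL : 0 < L := lip_pos hf hc
  have hlip : ∀ x y, ‖f x - f y‖ ≤ L * ‖x - y‖ := lip_spec hf
  -- the chart
  set Φ : WithLp 2 (E n × E n) → E n × E m := fun p =>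
    ((2 : ℝ)⁻¹ • (p.fst + p.snd), (2 * L)⁻¹ • (f p.snd - f p.fst)) with hΦ
  have hkey : ∀ p ∈ stretchSet f, ∀ q ∈ stretchSet f, dist p q ≤ 6 * dist (Φ p) (Φ q) := by
    intro p hp q hq
    set z := (2 : ℝ)⁻¹ • (p.fst + p.snd) with hz
    set d := (2 : ℝ)⁻¹ • (p.snd - p.fst) with hd
    set D := (2 * L)⁻¹ • (f p.snd - f p.fst) with hDd
    set F := (2 : ℝ)⁻¹ • (f p.snd + f p.fst) with hF
    set z' := (2 : ℝ)⁻¹ • (q.fst + q.snd) with hz'
    set d' := (2 : ℝ)⁻¹ • (q.snd - q.fst) with hd'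
    set D' := (2 * L)⁻¹ • (f q.snd - f q.fst) with hDd'
    set F' := (2 : ℝ)⁻¹ • (f q.snd + f q.fst) with hF'
    have a1 : z + d = p.snd := by rw [hz, hd]; module
    have a2 : z - d = p.fst := by rw [hz, hd]; module
    have a3 : z' + d' = q.snd := by rw [hz', hd']; module
    have a4 : z' - d' = q.fst := by rw [hz', hd']; module
    have hLD : L • D = (2 : ℝ)⁻¹ • (f p.snd - f p.fst) := by
      rw [hDd, smul_smul]; congr 1; field_simp
    have hLD' : L • D' = (2 : ℝ)⁻¹ • (f q.snd - f q.fst) := by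
      rw [hDd', smul_smul]; congr 1; field_simp
    have b1 : f (z + d) = F + L • D := by rw [a1, hLD, hF]; module
    have b2 : f (z - d) = F - L • D := by rw [a2, hLD, hF]; module
    have b3 : f (z' + d') = F' + L • D' := by rw [a3, hLD', hF']; module
    have b4 : f (z' - d') = F' - L • D' := by rw [a4, hLD', hF']; module
    have c1 : ‖D‖ = ‖d‖ := by
      have : ‖f p.snd - f p.fst‖ = L * ‖p.snd - p.fst‖ := by
        rw [norm_sub_rev, norm_sub_rev p.snd]; exact hp
      rw [hDd, hd, norm_smul, norm_smul, this, norm_inv, norm_inv, norm_mul, Real.norm_eq_abs L,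
        abs_of_pos hL]
      field_simp
    have c2 : ‖D'‖ = ‖d'‖ := by
      have : ‖f q.snd - f q.fst‖ = L * ‖q.snd - q.fst‖ := by
        rw [norm_sub_rev, norm_sub_rev q.snd]; exact hq
      rw [hDd', hd', norm_smul, norm_smul, this, norm_inv, norm_inv, norm_mul, Real.norm_eq_abs L,
        abs_of_pos hL]
      field_simp
    have hk := key hL hlip b1 b2 b3 b4 c1 c2
    set δ := dist (Φ p) (Φ q) with hδ
    have hδ0 : 0 ≤ δ := dist_nonneg
    have g1 : ‖z - z'‖ ≤ δ := by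
      rw [← dist_eq_norm]
      exact le_max_left _ _
    have g2 : ‖D - D'‖ ≤ δ := by
      rw [← dist_eq_norm]
      exact le_max_right _ _
    have g3 : ‖d - d'‖ ≤ 2 * δ := by
      apply abs_le_of_sq_le_sq' _ (by positivity) |>.2
      nlinarith [norm_nonneg (z - z'), norm_nonneg (D - D')]
    have h1 : dist p.fst q.fst ≤ 3 * δ := by
      rw [dist_eq_norm, ← a2, ← a4]
      have : (z - d) - (z' - d') = (z - z') - (d - d') := by abel
      rw [this]
      refine (norm_sub_le _ _).trans ?_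
      linarith
    have h2 : dist p.snd q.snd ≤ 3 * δ := by
      rw [dist_eq_norm, ← a1, ← a3]
      have : (z + d) - (z' + d') = (z - z') + (d - d') := by abel
      rw [this]
      refine (norm_add_le _ _).trans ?_
      linarith
    rw [WithLp.prod_dist_eq_of_L2]
    have h3 : 0 ≤ dist p.fst q.fst := dist_nonneg
    have h4 : 0 ≤ dist p.snd q.snd := dist_nonneg
    apply Real.sqrt_le_iff.2
    constructor
    · positivity
    · nlinarith
  -- the inverse of the chart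
  set g : E n × E m → WithLp 2 (E n × E n) := Function.invFunOn Φ (stretchSet f) with hg
  have hinj : InjOn Φ (stretchSet f) := by
    intro p hp q hq hpq
    have := hkey p hp q hq
    rw [hpq, dist_self, mul_zero] at this
    exact dist_le_zero.1 this
  have hinv : ∀ p ∈ stretchSet f, g (Φ p) = p := fun p hp => hinj.leftInvOn_invFunOn hp
  have hgl : LipschitzOnWith 6 g (Φ '' stretchSet f) := by
    apply LipschitzOnWith.of_dist_le_mul
    rintro _ ⟨p, hp, rfl⟩ _ ⟨q, hq, rfl⟩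
    rw [hinv p hp, hinv q hq]
    exact_mod_cast hkey p hp q hq
  obtain ⟨G, hG, hGe⟩ := hgl.extend_finite_dimension
  let A : E (n + m) ≃L[ℝ] E n × E m := EuclideanSpace.finAddEquivProd
  refine ⟨_, G ∘ A, hG.comp A.lipschitz, ?_⟩
  intro p hp
  refine ⟨A.symm (Φ p), ?_⟩
  simp only [Function.comp_apply, ContinuousLinearEquiv.apply_symm_apply]
  rw [← hGe (mem_image_of_mem Φ hp), hinv p hp]

end Pool.Agent.Results.MP_adfebc_an.StretchSet
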